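import Pool.Agent.Y698.SG.Az
import Pool.Agent.Y698.SG.Inp
import Pool.Agent.Y698.Lq

/-!
# Twists of `X_0(49)`: the analytic side over the rational numbers
-/

set_option autoImplicit false

namespace Pool.Agent.Q6.XK

open Finset
open Pool.Agent.Y698 Pool.Agent.Y698.SG
open H667R3 Pool.Agent.W192.HK Pool.Agent.TH936.CM Pool.Agent.TH936.PU

/-- the L-function and its value -/
theorem ana0 {Q P : Finset ℕ} (hQ : ∀ q ∈ Q, Inq q) (hP : ∀ p ∈ P, Spl p)
    (hdet : (mat Q P).det ≠ 0) :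
    ∃ F : ℂ → ℂ, Differentiable ℂ F ∧
    (∀ z : ℂ, 3 / 2 < z.re → HasProd (fun p : Nat.Primes =>
      (1 - bc p * ((∏ q ∈ Q ∪ P, qch q (p : ℕ)) * ((p : ℕ) : ℂ) ^ (-z)) +
      ec p * ((∏ q ∈ Q ∪ P, qch q (p : ℕ)) * ((p : ℕ) : ℂ) ^ (-z)) ^ 2)⁻¹) (F z)) ∧ F 1 ≠ 0 := by
  obtain ⟨F, g1, g2, g4⟩ := val_quad' inp hQ hP hdet
  refine ⟨F, g1, g2, ?_⟩
  obtain ⟨L, Ω, h⟩ := exists_LD
  have hirrA : Irreducible aR := irr_of_prime_norm (by rw [aR_nR]; norm_num)
  have hp : (sp aR).IsPrime := (maximal_sp hirrA).isPrime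
  obtain ⟨B, hB⟩ := exists_vs (sp aR)
  have h1 := hB aR (Ideal.mem_span_singleton_self _)
  rw [aR_coe] at h1
  have h2 := g4 _ B.valuation L Ω h h1
  intro h0
  rw [h0, map_zero, zero_div, map_zero, mul_zero] at h2
  exact pow_ne_zero _ ((Valuation.ne_zero_iff B.valuation).2 two_ne_zero) h2.symm

/-- the number of points and the coefficients -/
theorem count_eq {S : Finset ℕ} (hS : ∀ q ∈ S, Gp q) {D : ℤ} (hD : D = ((∏ q ∈ S, q : ℕ) : ℤ))
    {p : ℕ} (hp : p.Prime) (hp2 : p ≠ 2) (hp7 : p ≠ 7) (hpS : p ∉ S) :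
    ((p : ℂ) - (Nat.card {q : ZMod p × ZMod p //
      q.2 ^ 2 = q.1 ^ 3 + ((-35 * D ^ 2 : ℤ) : ZMod p) * q.1 + ((-98 * D ^ 3 : ℤ) : ZMod p)} : ℂ)) =
      (∏ q ∈ S, qch q p) * bc p := by
  have f : Fact p.Prime := ⟨hp⟩
  have hm4 := prod_mod_four (S := S) fun q hq => (hS q hq).m4
  obtain ⟨j, hj⟩ : ∃ j, ∏ q ∈ S, q = 1 + 4 * j := ⟨(∏ q ∈ S, q) / 4, by omega⟩
  have ht := trace_tw (ZMod p) hp hp7 one_ne_zero
    (by rw [Nat.card_eq_fintype_card, ZMod.card, pow_one]) hS hpS hj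
  have h2 : (2 : ZMod p) ≠ 0 := by
    intro h0
    have h3 : ((2 : ℕ) : ZMod p) = 0 := by exact_mod_cast h0
    rw [ZMod.natCast_eq_zero_iff] at h3
    exact hp2 ((Nat.prime_dvd_prime_iff_eq hp Nat.prime_two).1 h3)
  have hcast : ((j : ℕ) : ZMod p) = ((j : ℤ) : ZMod p) := (Int.cast_natCast j).symm
  rw [hcast, card_AP_EX (ZMod p) h2 (j : ℤ), pow_one, Nat.card_eq_fintype_card (α := ZMod p),
    ZMod.card] at ht
  have hD' : D = 1 + 4 * (j : ℤ) := by rw [hD, hj]; push_cast; ring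
  rw [hD']
  have e : W165.CE.pw (bc (p : ℕ)) (ec (p : ℕ)) 1 = bc (p : ℕ) := rfl
  rw [e] at ht
  rw [← ht]
  push_cast
  rfl

open Classical in
/-- the incomplete Euler product -/
theorem ana {Q P : Finset ℕ} (hQ : ∀ q ∈ Q, Inq q) (hP : ∀ p ∈ P, Spl p)
    (hdet : (mat Q P).det ≠ 0) {D : ℤ} (hD : D = ((∏ q ∈ Q ∪ P, q : ℕ) : ℤ)) :
    ∃ F : ℂ → ℂ, Differentiable ℂ F ∧
      (∀ s : ℂ, (3 : ℝ) / 2 < s.re →
        HasProd
          (fun p : ℕ =>
            if p.Prime ∧ ¬ ((p : ℤ) ∣ 2 * (-4 * (-35 * D ^ 2) ^ 3 - 27 * (-98 * D ^ 3) ^ 2)) then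
              (1 - ((p : ℂ) - (Nat.card {q : ZMod p × ZMod p //
                  q.2 ^ 2 = q.1 ^ 3 + ((-35 * D ^ 2 : ℤ) : ZMod p) * q.1 +
                    ((-98 * D ^ 3 : ℤ) : ZMod p)} : ℂ))
                  * (p : ℂ) ^ (-s) + (p : ℂ) ^ (1 - 2 * s))⁻¹
            else 1)
          (F s)) ∧ F 1 ≠ 0 := by
  obtain ⟨F, h1, h2, h3⟩ := ana0 hQ hP hdet
  set S := Q ∪ P with hSd
  have hS : ∀ q ∈ S, Gp q := by
    intro q hq
    rcases Finset.mem_union.1 hq with h | h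
    · exact Gp.of_inq (hQ q h)
    · exact Gp.of_spl (hP q h)
  have h2S : 2 ∉ S := fun h => by have := (hS 2 h).m4; omega
  have h7S : 7 ∉ S := fun h => by have := (hS 7 h).m4; omega
  obtain ⟨ε, hε⟩ : ∃ ε : ℕ → ℂ, ε = fun p => ∏ q ∈ S, qch q (p : ℕ) := ⟨_, rfl⟩
  have hεs : ∀ p : ℕ, p.Prime → p ∉ S → (ε p) ^ 2 = 1 := by
    intro p hp hpS
    rw [hε]
    refine qprod_sq (fun q hq => (hS q hq).pr) fun q hq hd => ?_
    have h4 : q ∣ p := by exact_mod_cast hd
    exact hpS (((Nat.prime_dvd_prime_iff_eq (hS q hq).pr hp).1 h4) ▸ hq)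
  have hε0 : ∀ p : ℕ, p.Prime → p ∈ S → ε p = 0 := by
    intro p hp hpS
    rw [hε]
    refine Finset.prod_eq_zero hpS ?_
    rcases qch_val hp (p : ℤ) with h | h
    · exact h.2
    · exact absurd dvd_rfl h.1
  obtain ⟨E, hE⟩ : ∃ E : ℂ → ℕ → ℂ, E = fun s p => 1 - bc p * (ε p * (p : ℂ) ^ (-s)) +
    ec p * (ε p * (p : ℂ) ^ (-s)) ^ 2 := ⟨_, rfl⟩
  have hec2 : ec 2 = 2 := by
    unfold ec
    rw [if_neg (by norm_num)]
    norm_num
  have hE2 : ∀ s, E s 2 = 1 - ε 2 * (2 : ℂ) ^ (-s) + 2 * (ε 2 * (2 : ℂ) ^ (-s)) ^ 2 := by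
    intro s
    rw [hE]
    simp only [bc_two, hec2]
    push_cast
    ring
  have hε2 := hεs 2 Nat.prime_two h2S
  have hε2' : ε 2 = 1 ∨ ε 2 = -1 := by
    have h4 : (ε 2 - 1) * (ε 2 + 1) = 0 := by linear_combination hε2
    rcases mul_eq_zero.1 h4 with h | h
    · left; linear_combination h
    · right; linear_combination h
  refine ⟨fun s => F s * E s 2, ?_, ?_, ?_⟩
  · refine h1.mul ?_
    have : (fun s => E s 2) = fun s => 1 - ε 2 * (2 : ℂ) ^ (-s) + 2 * (ε 2 * (2 : ℂ) ^ (-s)) ^ 2 :=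
      funext hE2
    rw [this]
    have hc : Differentiable ℂ fun s : ℂ => (2 : ℂ) ^ (-s) := by
      intro s
      exact (differentiableAt_id.neg).const_cpow (Or.inl two_ne_zero)
    exact ((differentiable_const _).sub ((differentiable_const _).mul hc)).add
      ((differentiable_const _).mul (((differentiable_const _).mul hc).pow 2))
  · intro s hs
    have k1 := h2 s (by simpa using hs)
    have k2 : HasProd (Set.mulIndicator {p : ℕ | p.Prime} fun p => (E s p)⁻¹) (F s) := by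
      rw [← hasProd_subtype_iff_mulIndicator]
      have k1' : HasProd (fun p : Nat.Primes => (E s (p : ℕ))⁻¹) (F s) := by
        rw [hE, hε]
        exact k1
      exact k1'
    have k3 : HasProd (fun p : ℕ => if p = 2 then E s 2 else 1) (E s 2) := by
      have := hasProd_ite_eq 2 (E s 2)
      convert this using 1
    have hE20 : E s 2 ≠ 0 := by
      rw [hE2]
      intro h0
      have n1 : ‖(2 : ℂ) ^ (-s)‖ < 1 / 2 := by
        have := Complex.norm_cpow_eq_rpow_re_of_pos (x := (2 : ℝ)) (by norm_num) (-s)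
        push_cast at this
        rw [this, Complex.neg_re]
        calc (2 : ℝ) ^ (-s.re) < (2 : ℝ) ^ (-(1 : ℝ)) := by
              apply Real.rpow_lt_rpow_of_exponent_lt (by norm_num)
              linarith
          _ = 1 / 2 := by rw [Real.rpow_neg_one]; norm_num
      have n2 : ‖ε 2‖ = 1 := by
        rcases hε2' with h | h <;> rw [h] <;> simp
      have n3 : ‖ε 2 * (2 : ℂ) ^ (-s)‖ < 1 / 2 := by rwa [norm_mul, n2, one_mul]
      set x := ε 2 * (2 : ℂ) ^ (-s) with hx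
      have n4 : (1 : ℂ) = x - 2 * x ^ 2 := by linear_combination h0
      have n5 : (1 : ℝ) ≤ ‖x‖ + 2 * ‖x‖ ^ 2 := by
        calc (1 : ℝ) = ‖(1 : ℂ)‖ := by simp
          _ = ‖x - 2 * x ^ 2‖ := by rw [← n4]
          _ ≤ ‖x‖ + ‖2 * x ^ 2‖ := norm_sub_le _ _
          _ = ‖x‖ + 2 * ‖x‖ ^ 2 := by rw [norm_mul (2 : ℂ) (x ^ 2), norm_pow]; simp
      have n6 : 0 ≤ ‖x‖ := norm_nonneg x
      nlinarith
    have k4 := k2.mul k3
    refine (congrArg (fun f => HasProd f (F s * E s 2)) (funext fun p => ?_)).mpr k4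
    have hdvd : ∀ p : ℕ, p.Prime → ((p : ℤ) ∣ 2 * (-4 * (-35 * D ^ 2) ^ 3 - 27 * (-98 * D ^ 3) ^ 2) ↔
        p = 2 ∨ p = 7 ∨ p ∈ S) := by
      intro p hp
      have hpP : Prime (p : ℤ) := Nat.prime_iff_prime_int.1 hp
      have e1 : 2 * (-4 * (-35 * D ^ 2) ^ 3 - 27 * (-98 * D ^ 3) ^ 2) =
        -(2 ^ 9 * 7 ^ 3 * D ^ 6) := by ring
      rw [e1, dvd_neg]
      constructor
      · intro h
        rcases hpP.dvd_or_dvd h with h | h
        · rcases hpP.dvd_or_dvd h with h | h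
          · left
            have h' := hpP.dvd_of_dvd_pow h
            exact (Nat.prime_dvd_prime_iff_eq hp Nat.prime_two).1 (by exact_mod_cast h')
          · right; left
            have h' := hpP.dvd_of_dvd_pow h
            exact (Nat.prime_dvd_prime_iff_eq hp (by norm_num)).1 (by exact_mod_cast h')
        · right; right
          have h' := hpP.dvd_of_dvd_pow h
          by_contra hpS
          rw [hD] at h'
          exact not_dvd_prod hS hp hpS (by exact_mod_cast h')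
      · rintro (rfl | rfl | h)
        · exact Dvd.intro (2 ^ 8 * 7 ^ 3 * D ^ 6) (by push_cast; ring)
        · exact Dvd.intro (2 ^ 9 * 7 ^ 2 * D ^ 6) (by push_cast; ring)
        · have h' : (p : ℤ) ∣ D := by
            rw [hD]
            exact_mod_cast Finset.dvd_prod_of_mem (fun q => q) h
          exact (dvd_pow h' (by norm_num)).mul_left _
    by_cases hp : p.Prime
    · rw [Set.mulIndicator_of_mem (show p ∈ {p : ℕ | p.Prime} from hp)]
      by_cases hp2 : p = 2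
      · rw [if_pos hp2, if_neg (by rw [hdvd p hp]; tauto), hp2, inv_mul_cancel₀ hE20]
      rw [if_neg hp2, mul_one]
      by_cases hp7 : p = 7
      · rw [if_neg (by rw [hdvd p hp]; tauto), hp7]
        have hb7 : bc 7 = 0 := by
          have := bc_seven 0
          rwa [zero_add, pow_one] at this
        have he7 : ec 7 = 0 := by unfold ec; rw [if_pos rfl]
        rw [hE]
        simp only [hb7, he7]
        norm_num
      by_cases hpS : p ∈ S
      · rw [if_neg (by rw [hdvd p hp]; tauto), hE]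
        simp only [hε0 p hp hpS]
        norm_num
      · rw [if_pos ⟨hp, by rw [hdvd p hp]; tauto⟩, count_eq hS hD hp hp2 hp7 hpS]
        congr 1
        have hec : ec p = p := by unfold ec; rw [if_neg hp7]
        rw [hE]
        simp only [hec]
        have hp0 : (p : ℂ) ≠ 0 := by exact_mod_cast hp.ne_zero
        have e2 : (p : ℂ) ^ (1 - 2 * s) = p * ((p : ℂ) ^ (-s)) ^ 2 := by
          have e3 : (1 - 2 * s : ℂ) = 1 + (-s) + (-s) := by ring
          rw [e3, Complex.cpow_add _ _ hp0, Complex.cpow_add _ _ hp0, Complex.cpow_one]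
          ring
        have e4 := hεs p hp hpS
        have e5 : (∏ q ∈ S, qch q (p : ℤ)) = ε p := by rw [hε]
        rw [e2, e5]
        linear_combination (-((p : ℂ) * ((p : ℂ) ^ (-s)) ^ 2)) * e4
    · rw [Set.mulIndicator_of_notMem (show p ∉ {p : ℕ | p.Prime} from hp),
        if_neg (fun h : p = 2 => hp (by rw [h]; exact Nat.prime_two)), if_neg (fun h => hp h.1), mul_one]
  · refine mul_ne_zero h3 ?_
    rw [hE2, Complex.cpow_neg_one]
    rcases hε2' with h | h <;> rw [h] <;> norm_num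

end Pool.Agent.Q6.XK
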