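import Pool.Agent.Y703.CQ.Fin
import Pool.Agent.Y698.SG.Wc

/-!
# Twists of `X_0(49)`: the exact proportion
-/

set_option autoImplicit false

open scoped Classical

namespace Pool.Agent.Q6.XK

open Finset
open Pool.Agent.Y698 Pool.Agent.Y698.SG
open Pool.Agent.Y703.CQ (Sol Gd Cl cu nr c2 Ok t_DEN)

/-- the split primes -/
noncomputable def SP (n : ℕ) : Finset ℕ := n.primeFactors.filter fun p => p % 8 = 1

/-- the inert primes -/
noncomputable def IP (n : ℕ) : Finset ℕ := n.primeFactors.filter fun p => ¬ p % 8 = 1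

lemma nr_self {p : ℕ} : nr p p = 0 := by
  unfold nr
  rw [if_pos]
  rw [ZMod.natCast_self]
  exact IsSquare.zero

lemma nq_self {p : ℕ} : nq p p = 0 := by
  unfold nq
  rw [if_pos]
  rw [ZMod.natCast_self]
  exact IsSquare.zero

lemma nr_nq (p m : ℕ) : nr p m = nq p m := by
  unfold nr nq
  congr

/-- the matrix applied to a vector -/
theorem mulVec_eq (n : ℕ) (x : ℕ → ZMod 2) (i : SP n) :
    (mat (IP n) (SP n)).mulVec (fun j => x j) i =
      ∑ q ∈ n.primeFactors, nr i q * (cu x q + x i) + n4 i * x i := by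
  have e0 : (mat (IP n) (SP n)).mulVec (fun j => x j) i =
    ∑ j : SP n, mat (IP n) (SP n) i j * x j := rfl
  have hsum : ∑ q ∈ n.primeFactors, nr i q = ∑ q ∈ IP n, nq i q + ∑ p ∈ (SP n).erase (i : ℕ), nq i p := by
    have h1 : ∑ q ∈ n.primeFactors, nr i q = ∑ q ∈ SP n, nq i q + ∑ q ∈ IP n, nq i q := by
      unfold SP IP
      rw [Finset.sum_filter_add_sum_filter_not]
      exact Finset.sum_congr rfl fun q _ => nr_nq _ _
    rw [h1, ← Finset.add_sum_erase (SP n) _ i.2, nq_self, zero_add, add_comm]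
  have e1 : ∀ j : SP n, mat (IP n) (SP n) i j * x j = nr i j * x j +
      (if j = i then (∑ q ∈ n.primeFactors, nr i q + n4 i) * x i else 0) := by
    intro j
    unfold mat
    rw [Matrix.of_apply]
    by_cases hij : i = j
    · subst hij
      rw [if_pos rfl, if_pos rfl, hsum, nr_self]
      ring
    · have hji : ¬ j = i := fun h => hij h.symm
      rw [if_neg hij, if_neg hji, nr_nq]
      ring
  have e2 : ∑ j : SP n, nr i j * x j = ∑ q ∈ n.primeFactors, nr i q * cu x q := by
    rw [Finset.sum_coe_sort (SP n) (fun q => nr i q * x q)]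
    unfold SP
    rw [Finset.sum_filter]
    refine Finset.sum_congr rfl fun q _ => ?_
    unfold cu
    by_cases h : q % 8 = 1
    · rw [if_pos h, if_pos h]
    · rw [if_neg h, if_neg h, mul_zero]
  rw [e0, Finset.sum_congr rfl fun j _ => e1 j, Finset.sum_add_distrib, e2,
    Finset.sum_ite_eq' Finset.univ i, if_pos (Finset.mem_univ i)]
  have e3 : ∑ q ∈ n.primeFactors, nr i q * (cu x q + x i) =
      ∑ q ∈ n.primeFactors, nr i q * cu x q + (∑ q ∈ n.primeFactors, nr i q) * x i := by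
    rw [Finset.sum_mul, ← Finset.sum_add_distrib]
    exact Finset.sum_congr rfl fun q _ => by ring
  rw [e3]
  ring

theorem gd_iff (n : ℕ) : (mat (IP n) (SP n)).det ≠ 0 ↔ Gd n4 n.primeFactors := by
  have hmem : ∀ p, p ∈ SP n ↔ p ∈ n.primeFactors ∧ p % 8 = 1 := fun p => Finset.mem_filter
  rw [Ne, ← Matrix.exists_mulVec_eq_zero_iff]
  constructor
  · intro h x hx p hp hp1
    by_contra hxp
    apply h
    refine ⟨fun j => x j, ?_, ?_⟩
    · intro h0
      exact hxp (congrFun h0 ⟨p, (hmem p).2 ⟨hp, hp1⟩⟩)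
    · funext i
      rw [mulVec_eq]
      have hi := (hmem i).1 i.2
      exact hx i hi.1 hi.2
  · rintro h ⟨v, hv0, hv⟩
    apply hv0
    let x : ℕ → ZMod 2 := fun p => if hp : p ∈ SP n then v ⟨p, hp⟩ else 0
    have hxv : (fun j : SP n => x j) = v := by
      funext j
      simp only [x]
      rw [dif_pos j.2]
    have hs : Sol n4 n.primeFactors x := by
      intro p hp hp1
      have h1 := mulVec_eq n x ⟨p, (hmem p).2 ⟨hp, hp1⟩⟩
      rw [hxv, hv] at h1
      exact h1.symm
    funext i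
    have hi := (hmem i).1 i.2
    have := h x hs i hi.1 hi.2
    rw [← hxv]
    exact this

/-- the family: `D` squarefree, `1` modulo `8`, the prime factors are `1` modulo `8` and squares
modulo `7`, or `5` modulo `8` and not squares modulo `7` -/
def Fam (D : ℕ) : Prop := Squarefree D ∧ D % 8 = 1 ∧ ∀ p : ℕ, p.Prime → p ∣ D →
  (p % 8 = 1 ∧ (p % 7 = 1 ∨ p % 7 = 2 ∨ p % 7 = 4)) ∨
  (p % 8 = 5 ∧ (p % 7 = 3 ∨ p % 7 = 5 ∨ p % 7 = 6))

lemma prod_mod {S : Finset ℕ} (hS : ∀ p ∈ S, p % 8 = 1 ∨ p % 8 = 5) :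
    (∏ p ∈ S, p) % 8 = 1 ∧ (S.filter fun p => p % 8 = 5).card % 2 = 0 ∨
    (∏ p ∈ S, p) % 8 = 5 ∧ (S.filter fun p => p % 8 = 5).card % 2 = 1 := by
  induction S using Finset.induction_on with
  | empty => left; simp
  | insert a S ha ih =>
    have h1 := ih fun p hp => hS p (Finset.mem_insert_of_mem hp)
    rw [Finset.prod_insert ha, Finset.filter_insert, Nat.mul_mod]
    rcases hS a (Finset.mem_insert_self a S) with h | h
    · rw [if_neg (by omega), h]
      rcases h1 with ⟨k1, k2⟩ | ⟨k1, k2⟩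
      · left; rw [k1]; exact ⟨rfl, k2⟩
      · right; rw [k1]; exact ⟨rfl, k2⟩
    · rw [if_pos h, Finset.card_insert_of_notMem (fun h => ha (Finset.mem_filter.1 h).1), h]
      rcases h1 with ⟨k1, k2⟩ | ⟨k1, k2⟩
      · right; rw [k1]; exact ⟨rfl, by omega⟩
      · left; rw [k1]; exact ⟨rfl, by omega⟩

theorem fam_iff (n : ℕ) : Fam n ↔ Squarefree n ∧ Cl {5} {0} n.primeFactors := by
  unfold Fam
  constructor
  · rintro ⟨h1, h2, h3⟩
    refine ⟨h1, ?_, ?_, ?_⟩
    · intro p hp
      obtain ⟨k1, k2, -⟩ := Nat.mem_primeFactors.1 hp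
      rcases h3 p k1 k2 with h | h
      · exact Or.inl ⟨k1, h.1, h.2⟩
      · refine Or.inr ⟨k1, ?_, ?_, h.2⟩
        · rintro rfl
          omega
        · rw [h.1]; decide
    · have h4 := prod_mod (S := n.primeFactors) (by
        intro p hp
        obtain ⟨k1, k2, -⟩ := Nat.mem_primeFactors.1 hp
        rcases h3 p k1 k2 with h | h
        · exact Or.inl h.1
        · exact Or.inr h.1)
      rw [Nat.prod_primeFactors_of_squarefree h1] at h4
      rcases h4 with h4 | h4
      · exact h4.2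
      · omega
    · have : (n.primeFactors.filter fun p => p % 8 = 3) = ∅ := by
        rw [Finset.filter_eq_empty_iff]
        intro p hp h5
        obtain ⟨k1, k2, -⟩ := Nat.mem_primeFactors.1 hp
        rcases h3 p k1 k2 with h | h <;> omega
      rw [this]
      decide
  · rintro ⟨h1, h2, h3, -⟩
    have hcl : ∀ p : ℕ, p.Prime → p ∣ n →
        (p % 8 = 1 ∧ (p % 7 = 1 ∨ p % 7 = 2 ∨ p % 7 = 4)) ∨
        (p % 8 = 5 ∧ (p % 7 = 3 ∨ p % 7 = 5 ∨ p % 7 = 6)) := by
      intro p hp hd
      rcases h2 p (Nat.mem_primeFactors.2 ⟨hp, hd, h1.ne_zero⟩) with h | h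
      · exact Or.inl h.2
      · refine Or.inr ⟨?_, h.2.2.2⟩
        have := h.2.2.1
        rw [Finset.mem_singleton] at this
        exact this
    refine ⟨h1, ?_, hcl⟩
    have h4 := prod_mod (S := n.primeFactors) (by
      intro p hp
      obtain ⟨k1, k2, -⟩ := Nat.mem_primeFactors.1 hp
      rcases hcl p k1 k2 with h | h
      · exact Or.inl h.1
      · exact Or.inr h.1)
    rw [Nat.prod_primeFactors_of_squarefree h1] at h4
    rcases h4 with h4 | h4
    · exact h4.1
    · omega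

/-- **the exact proportion** -/
theorem prop : Filter.Tendsto
    (fun X : ℕ => (((Finset.Icc 1 X).filter fun D => Fam D ∧ (mat (IP D) (SP D)).det ≠ 0).card : ℝ) /
      (((Finset.Icc 1 X).filter fun D => Fam D).card : ℝ))
    Filter.atTop (nhds (∏' i : ℕ, (1 - (1 / 2 : ℝ) ^ (2 * i + 1)))) := by
  have h := t_DEN {5} {0} n4 ⟨Or.inl rfl, Or.inl (by decide)⟩
  have e1 : ∀ X : ℕ, ((Finset.Icc 1 X).filter fun D => Fam D ∧ (mat (IP D) (SP D)).det ≠ 0) =
      (Finset.Icc 1 X).filter fun D => Squarefree D ∧ Cl {5} {0} D.primeFactors ∧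
        Gd n4 D.primeFactors := by
    intro X
    refine Finset.filter_congr fun D _ => ?_
    rw [fam_iff, gd_iff, and_assoc]
  have e2 : ∀ X : ℕ, ((Finset.Icc 1 X).filter fun D => Fam D) =
      (Finset.Icc 1 X).filter fun D => Squarefree D ∧ Cl {5} {0} D.primeFactors := by
    intro X
    exact Finset.filter_congr fun D _ => fam_iff D
  simp only [e1, e2]
  exact h

end Pool.Agent.Q6.XK
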