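import Pool.Agent.Q6.XK.Rank
import Pool.Agent.Q6.XK.Den

/-!
# Twists of `X_0(49)`: the criterion in terms of the divisors of `D`
-/

set_option autoImplicit false

open scoped Classical

namespace Pool.Agent.Q6.XK

open Finset
open Pool.Agent.Y698 Pool.Agent.Y698.SG

/-- `D` squarefree, all prime factors `1` modulo `4` -/
def Base (D : ℕ) : Prop := Squarefree D ∧ ∀ p : ℕ, p.Prime → p ∣ D → p % 4 = 1

/-- the obstruction -/
def Obs (D d : ℕ) : Prop := d ∣ D ∧ 1 < d ∧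
  (∀ p : ℕ, p.Prime → p ∣ d → IsSquare (-7 : ZMod p)) ∧
  (∀ p : ℕ, p.Prime → p ∣ D → ¬ p ∣ d → IsSquare (-7 : ZMod p) → IsSquare (d : ZMod p)) ∧
  ∀ p : ℕ, p.Prime → p ∣ d → (IsSquare ((D / d : ℕ) : ZMod p) ↔ ∃ y : ZMod p, y ^ 4 = -7)

noncomputable def PP (D : ℕ) : Finset ℕ := D.primeFactors.filter fun p => IsSquare (-7 : ZMod p)

noncomputable def QQ (D : ℕ) : Finset ℕ := D.primeFactors.filter fun p => ¬ IsSquare (-7 : ZMod p)

lemma mem_PP {D p : ℕ} (hD : D ≠ 0) :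
    p ∈ PP D ↔ p.Prime ∧ p ∣ D ∧ IsSquare (-7 : ZMod p) := by
  unfold PP
  rw [Finset.mem_filter, Nat.mem_primeFactors]
  tauto

lemma mem_QQ {D p : ℕ} (hD : D ≠ 0) :
    p ∈ QQ D ↔ p.Prime ∧ p ∣ D ∧ ¬ IsSquare (-7 : ZMod p) := by
  unfold QQ
  rw [Finset.mem_filter, Nat.mem_primeFactors]
  tauto

lemma QP_eq (D : ℕ) : QQ D ∪ PP D = D.primeFactors := by
  unfold QQ PP
  rw [Finset.union_comm]
  exact Finset.filter_union_filter_not_eq _ _

lemma prod_QP {D : ℕ} (hD : Base D) : ∏ q ∈ QQ D ∪ PP D, q = D := by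
  rw [QP_eq]
  exact Nat.prod_primeFactors_of_squarefree hD.1

lemma hPP {D : ℕ} (hD : Base D) : ∀ p ∈ PP D, Spl p := by
  intro p hp
  obtain ⟨h1, h2, h3⟩ := (mem_PP hD.1.ne_zero).1 hp
  exact ⟨h1, hD.2 p h1 h2, h3⟩

lemma hQQ {D : ℕ} (hD : Base D) : ∀ p ∈ QQ D, Inq p := by
  intro p hp
  obtain ⟨h1, h2, h3⟩ := (mem_QQ hD.1.ne_zero).1 hp
  exact ⟨h1, hD.2 p h1 h2, h3⟩

lemma add_zero_iff : ∀ a b : ZMod 2, a + b = 0 ↔ (b = 0 ↔ a = 0) := by decide

/-- the two forms of the conditions -/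
lemma cond_iff {D : ℕ} (hD : Base D) {J : Finset ℕ} (hJ : J ⊆ PP D) :
    ((∀ i ∈ PP D \ J, ∑ j ∈ J, nq i j = 0) ↔
      ∀ p : ℕ, p.Prime → p ∣ D → ¬ p ∣ ∏ l ∈ J, l → IsSquare (-7 : ZMod p) →
        IsSquare ((∏ l ∈ J, l : ℕ) : ZMod p)) ∧
    ((∀ i ∈ J, n4 i + ∑ q ∈ QQ D, nq i q + ∑ j ∈ PP D \ J, nq i j = 0) ↔
      ∀ p : ℕ, p.Prime → p ∣ ∏ l ∈ J, l →
        (IsSquare ((D / ∏ l ∈ J, l : ℕ) : ZMod p) ↔ ∃ y : ZMod p, y ^ 4 = -7)) := by
  have hD0 := hD.1.ne_zero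
  have hP := hPP hD
  have hQ := hQQ hD
  have hdj := disj_QP hQ hP
  have hJp : ∀ l ∈ J, l.Prime := fun l hl => (hP l (hJ hl)).pr
  have hdvd : ∀ p : ℕ, p.Prime → (p ∣ ∏ l ∈ J, l ↔ p ∈ J) := by
    intro p hp
    constructor
    · intro h
      by_contra hc
      exact not_dvd_pr hp hJp hc h
    · exact fun h => Finset.dvd_prod_of_mem (fun l => l) h
  constructor
  · constructor
    · intro h p hp hpD hpJ hs
      rw [hdvd p hp] at hpJ
      rw [← nq_zero, nq_prod hp hJp hpJ]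
      exact h p (Finset.mem_sdiff.2 ⟨(mem_PP hD0).2 ⟨hp, hpD, hs⟩, hpJ⟩)
    · intro h i hi
      obtain ⟨h1, h2⟩ := Finset.mem_sdiff.1 hi
      obtain ⟨k1, k2, k3⟩ := (mem_PP hD0).1 h1
      rw [← nq_prod k1 hJp h2, nq_zero]
      exact h i k1 k2 (fun h3 => h2 ((hdvd i k1).1 h3)) k3
  · have key : ∀ i ∈ J, (n4 i + ∑ q ∈ QQ D, nq i q + ∑ j ∈ PP D \ J, nq i j = 0 ↔
        (IsSquare ((D / ∏ l ∈ J, l : ℕ) : ZMod i) ↔ ∃ y : ZMod i, y ^ 4 = -7)) := by
      intro i hi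
      have hip := hJp i hi
      have hE : ∀ l ∈ QQ D ∪ (PP D \ J), l.Prime := by
        intro l hl
        rcases Finset.mem_union.1 hl with h | h
        · exact (hQ l h).pr
        · exact (hP l (Finset.mem_sdiff.1 h).1).pr
      have hpE : i ∉ QQ D ∪ (PP D \ J) := by
        intro h
        rcases Finset.mem_union.1 h with h | h
        · exact Finset.disjoint_left.1 hdj h (hJ hi)
        · exact (Finset.mem_sdiff.1 h).2 hi
      have hpos : 0 < ∏ l ∈ J, l := Finset.prod_pos fun l hl => (hJp l hl).pos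
      have e1 : D / ∏ l ∈ J, l = ∏ l ∈ QQ D ∪ (PP D \ J), l := by
        apply Nat.div_eq_of_eq_mul_left hpos
        rw [Finset.prod_union (hdj.mono_right Finset.sdiff_subset), mul_assoc,
          Finset.prod_sdiff hJ, ← Finset.prod_union hdj, prod_QP hD]
      rw [e1, ← nq_zero, nq_prod hip hE hpE, Finset.sum_union (hdj.mono_right Finset.sdiff_subset),
        add_assoc, add_zero_iff, n4_zero]
    constructor
    · intro h p hp hpd
      exact (key p ((hdvd p hp).1 hpd)).1 (h p ((hdvd p hp).1 hpd))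
    · intro h i hi
      exact (key i hi).2 (h i (hJp i hi) ((hdvd i (hJp i hi)).2 hi))

theorem crit {D : ℕ} (hD : Base D) : (mat (QQ D) (PP D)).det ≠ 0 ↔ ∀ d, ¬ Obs D d := by
  have hD0 := hD.1.ne_zero
  have hP := hPP hD
  constructor
  · rintro hdet d ⟨h1, h2, h3, h4, h5⟩
    have hd : Squarefree d := hD.1.squarefree_of_dvd h1
    have hJ : d.primeFactors ⊆ PP D := by
      intro p hp
      obtain ⟨k1, k2, k3⟩ := Nat.mem_primeFactors.1 hp
      exact (mem_PP hD0).2 ⟨k1, k2.trans h1, h3 p k1 k2⟩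
    obtain ⟨c1, c2⟩ := cond_iff hD hJ
    have hprod : ∏ l ∈ d.primeFactors, l = d := Nat.prod_primeFactors_of_squarefree hd
    rw [hprod] at c1 c2
    have := ker_empty hdet hJ (c1.2 h4) (c2.2 h5)
    rw [this] at hprod
    simp at hprod
    omega
  · intro h hdet
    obtain ⟨J, hJP, hJne, h1, h2⟩ := Pool.Agent.Y21.SG.t_LIN ℕ
      (fun i => n4 i + ∑ q ∈ QQ D, nq i q) nq (PP D) hdet
    obtain ⟨c1, c2⟩ := cond_iff hD hJP
    refine h (∏ l ∈ J, l) ⟨?_, ?_, ?_, c1.1 h1, c2.1 h2⟩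
    · have h3 : ∏ l ∈ J, l ∣ ∏ q ∈ QQ D ∪ PP D, q :=
        Finset.prod_dvd_prod_of_subset _ _ _ (hJP.trans Finset.subset_union_right)
      rwa [prod_QP hD] at h3
    · obtain ⟨p, hp⟩ := hJne
      have hp1 := (hP p (hJP hp)).pr
      have h3 : p ∣ ∏ l ∈ J, l := Finset.dvd_prod_of_mem (fun l => l) hp
      have hpos : 0 < ∏ l ∈ J, l := Finset.prod_pos fun l hl => (hP l (hJP hl)).pr.pos
      have := Nat.le_of_dvd hpos h3
      exact lt_of_lt_of_le hp1.one_lt this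
    · intro p hp hpd
      by_contra hc
      have hpJ : p ∉ J := fun h3 => hc (hP p (hJP h3)).sq
      exact not_dvd_pr hp (fun l hl => (hP l (hJP hl)).pr) hpJ hpd

/-- **the criterion** -/
theorem triv_crit {D : ℕ} (hD : Base D) : Triv (D : ℤ) ↔ ∀ d, ¬ Obs D d := by
  have h := triv_det (hQQ hD) (hPP hD)
  rw [prod_QP hD] at h
  rw [h, crit hD]

lemma seven_iff {p : ℕ} (hp : p.Prime) (h4 : p % 4 = 1) :
    IsSquare (-7 : ZMod p) ↔ IsSquare (p : ZMod 7) := by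
  have : Fact p.Prime := ⟨hp⟩
  have : Fact (Nat.Prime 7) := ⟨by norm_num⟩
  rw [← ZMod.exists_sq_eq_prime_iff_of_mod_four_eq_one h4 (by norm_num : (7 : ℕ) ≠ 2)]
  obtain ⟨i, hi⟩ : IsSquare (-1 : ZMod p) := ZMod.exists_sq_eq_neg_one_iff.2 (by omega)
  have hi0 : i ≠ 0 := by
    rintro rfl
    rw [mul_zero] at hi
    exact neg_ne_zero.2 one_ne_zero hi
  refine sq_mul_iff hi0 ?_
  rw [← hi]
  push_cast
  ring

lemma sq7 : ∀ a : ZMod 7, IsSquare a ↔ a = 0 ∨ a = 1 ∨ a = 2 ∨ a = 4 := by decide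

lemma mod7 {p : ℕ} : ((p % 7 = 1 ∨ p % 7 = 2 ∨ p % 7 = 4) → IsSquare (p : ZMod 7)) ∧
    ((p % 7 = 3 ∨ p % 7 = 5 ∨ p % 7 = 6) → ¬ IsSquare (p : ZMod 7)) := by
  have h2 : (p : ZMod 7) = ((p % 7 : ℕ) : ZMod 7) := by
    rw [ZMod.natCast_eq_natCast_iff]
    exact (Nat.mod_modEq p 7).symm
  constructor
  · rintro (h | h | h) <;> rw [h2, h, sq7] <;> decide
  · rintro (h | h | h) <;> rw [h2, h, sq7] <;> decide

lemma fam_base {D : ℕ} (h : Fam D) : Base D := by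
  refine ⟨h.1, fun p hp hd => ?_⟩
  rcases h.2.2 p hp hd with h1 | h1 <;> omega

lemma fam_PP {D : ℕ} (h : Fam D) : PP D = SP D ∧ QQ D = IP D := by
  have key : ∀ p ∈ D.primeFactors, (IsSquare (-7 : ZMod p) ↔ p % 8 = 1) := by
    intro p hp
    obtain ⟨k1, k2, -⟩ := Nat.mem_primeFactors.1 hp
    have h4 := (fam_base h).2 p k1 k2
    rw [seven_iff k1 h4]
    rcases h.2.2 p k1 k2 with h1 | h1
    · exact iff_of_true (mod7.1 h1.2) h1.1
    · exact iff_of_false (mod7.2 h1.2) (by omega)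
  constructor
  · exact Finset.filter_congr fun p hp => key p hp
  · exact Finset.filter_congr fun p hp => not_congr (key p hp)

/-- **the exact proportion** -/
theorem prop_triv : Filter.Tendsto
    (fun X : ℕ => (((Finset.Icc 1 X).filter fun D => Fam D ∧ Triv (D : ℤ)).card : ℝ) /
      (((Finset.Icc 1 X).filter fun D => Fam D).card : ℝ))
    Filter.atTop (nhds (∏' i : ℕ, (1 - (1 / 2 : ℝ) ^ (2 * i + 1)))) := by
  have e : ∀ X : ℕ, ((Finset.Icc 1 X).filter fun D => Fam D ∧ Triv (D : ℤ)) =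
      ((Finset.Icc 1 X).filter fun D => Fam D ∧ (mat (IP D) (SP D)).det ≠ 0) := by
    intro X
    refine Finset.filter_congr fun D _ => and_congr_right fun hF => ?_
    have h := triv_det (hQQ (fam_base hF)) (hPP (fam_base hF))
    rw [prod_QP (fam_base hF)] at h
    rw [h, (fam_PP hF).1, (fam_PP hF).2]
  simp only [e]
  exact prop

end Pool.Agent.Q6.XK
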