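import Pool.Agent.Q6.XK.Two
import Pool.Agent.Y698.SG.Cx
import Pool.Agent.Y809.BSD14.Selb

/-!
# Twists of `X_0(49)`: the two isogeny Selmer sets
-/

set_option autoImplicit false

namespace Pool.Agent.Q6.XK

open Finset
open Pool.Agent.Y698 Pool.Agent.Y698.SG
open Pool.Agent.Y700 (PC)
open Pool.Agent.Y814.BSD14 (not_dvd_of_sqf root_of_PC not_dvd_of_PC only_prime)
open Pool.Agent.Y809.BSD14 (sq_of_PC)

lemma sq_mul_iff {K : Type} [Field K] {a b c : K} (hc : c ≠ 0) (h : a = b * (c * c)) :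
    IsSquare a ↔ IsSquare b := by
  constructor
  · rintro ⟨t, ht⟩
    refine ⟨t / c, ?_⟩
    rw [div_mul_div_comm, eq_div_iff (mul_ne_zero hc hc), ← h, ht]
  · rintro ⟨t, ht⟩
    exact ⟨t * c, by rw [h, ht]; ring⟩

/-- square roots of `-7` -/
theorem sq_iff_n4 {p : ℕ} (hp : Spl p) {s : ZMod p} (hs : s ^ 2 = -7) :
    IsSquare s ↔ n4 p = 0 := by
  have f : Fact p.Prime := ⟨hp.pr⟩
  rw [n4_zero]
  constructor
  · rintro ⟨t, rfl⟩
    exact ⟨t, by linear_combination hs⟩
  · rintro ⟨y, hy⟩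
    obtain ⟨i, hi⟩ : IsSquare (-1 : ZMod p) :=
      ZMod.exists_sq_eq_neg_one_iff.2 (by have := hp.m4; omega)
    have h1 : (s - y ^ 2) * (s + y ^ 2) = 0 := by linear_combination hs - hy
    rcases mul_eq_zero.1 h1 with h | h
    · exact ⟨y, by linear_combination h⟩
    · exact ⟨i * y, by linear_combination h + y ^ 2 * hi⟩

lemma spl_ne_two {p : ℕ} (hp : Spl p) : p ≠ 2 := by
  rintro rfl
  have := hp.m4
  omega

lemma spl_ne_seven {p : ℕ} (hp : Spl p) : p ≠ 7 := by
  rintro rfl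
  have := hp.m4
  omega

lemma cast_ne {p q : ℕ} (hp : p.Prime) (hq : q.Prime) (h : p ≠ q) : (q : ZMod p) ≠ 0 := by
  intro h0
  have := (ZMod.natCast_eq_zero_iff q p).1 h0
  exact h ((Nat.prime_dvd_prime_iff_eq hp hq).1 this)

/-- the roots of `x² + 21 x + 112` -/
theorem rootA {p : ℕ} (hp : Spl p) {x : ZMod p} (hx : x ^ 2 + 21 * x + 112 = 0) :
    IsSquare x ↔ n4 p = 0 := by
  have f : Fact p.Prime := ⟨hp.pr⟩
  have h2 : (2 : ZMod p) ≠ 0 := by exact_mod_cast cast_ne hp.pr Nat.prime_two (spl_ne_two hp)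
  obtain ⟨s, hsx⟩ : ∃ s : ZMod p, s = 2 * x + 21 := ⟨_, rfl⟩
  have hs : s ^ 2 = -7 := by
    rw [hsx]
    linear_combination 4 * hx
  rw [← sq_iff_n4 hp hs]
  have hw0 : ((-3 - s) / 2 : ZMod p) ≠ 0 := by
    intro h0
    have h3 : s = -3 := by
      have : -3 - s = 0 := by
        rcases div_eq_zero_iff.1 h0 with h | h
        · exact h
        · exact absurd h h2
      linear_combination -this
    have h4 : (16 : ZMod p) = 0 := by
      have h5 := hs
      rw [h3] at h5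
      linear_combination h5
    have h6 : (2 : ZMod p) ^ 4 = 0 := by linear_combination h4
    exact pow_ne_zero 4 h2 h6
  refine sq_mul_iff hw0 ?_
  have h3 : x = (s - 21) / 2 := by
    rw [eq_div_iff h2, hsx]
    ring
  rw [h3]
  field_simp
  linear_combination (-(s + 6)) * hs

/-- the roots of `x² - 42 x - 7` -/
theorem rootB {p : ℕ} (hp : Spl p) {x : ZMod p} (hx : x ^ 2 - 42 * x - 7 = 0) :
    IsSquare x ↔ n4 p = 0 := by
  have f : Fact p.Prime := ⟨hp.pr⟩
  have h2 : (2 : ZMod p) ≠ 0 := by exact_mod_cast cast_ne hp.pr Nat.prime_two (spl_ne_two hp)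
  have h7 : (7 : ZMod p) ≠ 0 := by
    exact_mod_cast cast_ne hp.pr (by norm_num : (7 : ℕ).Prime) (spl_ne_seven hp)
  have h8 : (8 : ZMod p) ≠ 0 := by
    rw [show (8 : ZMod p) = 2 ^ 3 by norm_num]
    exact pow_ne_zero 3 h2
  obtain ⟨i, hi⟩ : IsSquare (-1 : ZMod p) :=
    ZMod.exists_sq_eq_neg_one_iff.2 (by have := hp.m4; omega)
  obtain ⟨v, hv⟩ : ∃ v : ZMod p, x = 21 + 8 * v := ⟨(x - 21) / 8, by field_simp; ring⟩
  have hv2 : v ^ 2 = 7 := by
    have h64 : (64 : ZMod p) ≠ 0 := by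
      rw [show (64 : ZMod p) = 2 ^ 6 by norm_num]
      exact pow_ne_zero 6 h2
    apply mul_left_cancel₀ h64
    rw [hv] at hx
    linear_combination hx
  have hs : (i * v) ^ 2 = -7 := by linear_combination (-v ^ 2) * hi - hv2
  rw [← sq_iff_n4 hp hs]
  have e : x = (i * v) * (((1 - i) * (3 + v) / 2) * ((1 - i) * (3 + v) / 2)) := by
    rw [hv]
    field_simp
    linear_combination (-(v * (3 + v) ^ 2 * (2 - i))) * hi - (v + 6) * 2 * hv2
  refine sq_mul_iff ?_ e
  intro h0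
  rw [h0, mul_zero, mul_zero] at e
  rw [e] at hx
  apply h7
  linear_combination -hx

/-- a vector of the kernel of the matrix -/
theorem ker_empty {Q P J : Finset ℕ} (hdet : (mat Q P).det ≠ 0) (hJ : J ⊆ P)
    (h1 : ∀ i ∈ P \ J, ∑ j ∈ J, nq i j = 0)
    (h2 : ∀ i ∈ J, n4 i + ∑ q ∈ Q, nq i q + ∑ j ∈ P \ J, nq i j = 0) : J = ∅ := by
  classical
  by_contra hne
  apply hdet
  rw [← Matrix.exists_mulVec_eq_zero_iff]
  refine ⟨fun i : P => if (i : ℕ) ∈ J then 1 else 0, ?_, ?_⟩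
  · obtain ⟨j, hj⟩ := Finset.nonempty_iff_ne_empty.2 hne
    intro h0
    have := congrFun h0 ⟨j, hJ hj⟩
    simp only [hj, if_true, Pi.zero_apply, one_ne_zero] at this
  · funext i
    have e1 : (mat Q P).mulVec (fun i : P => if (i : ℕ) ∈ J then (1 : ZMod 2) else 0) i =
        ∑ j ∈ J, (if (i : ℕ) = j then n4 i + ∑ q ∈ Q, nq i q + ∑ p ∈ P.erase (i : ℕ), nq i p
          else nq i j) := by
      unfold Matrix.mulVec dotProduct
      have e2 : ∀ j : P, (mat Q P) i j * (if (j : ℕ) ∈ J then (1 : ZMod 2) else 0) =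
          if (j : ℕ) ∈ J then (if (i : ℕ) = j then n4 i + ∑ q ∈ Q, nq i q +
            ∑ p ∈ P.erase (i : ℕ), nq i p else nq i j) else 0 := by
        intro j
        unfold mat
        rw [Matrix.of_apply]
        by_cases h3 : i = j
        · subst h3
          by_cases h4 : (i : ℕ) ∈ J
          · rw [if_pos rfl, if_pos h4, if_pos h4, if_pos rfl, mul_one]
          · rw [if_neg h4, if_neg h4, mul_zero]
        · have h3' : ¬ (i : ℕ) = (j : ℕ) := fun h => h3 (Subtype.ext h)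
          by_cases h4 : (j : ℕ) ∈ J
          · rw [if_neg h3, if_pos h4, if_pos h4, if_neg h3', mul_one]
          · rw [if_neg h4, if_neg h4, mul_zero]
      rw [Finset.sum_congr rfl fun j _ => e2 j]
      rw [Finset.sum_coe_sort P (fun j : ℕ => if j ∈ J then (if (i : ℕ) = j then n4 i +
        ∑ q ∈ Q, nq i q + ∑ p ∈ P.erase (i : ℕ), nq i p else nq i j) else 0),
        ← Finset.sum_filter, Finset.filter_mem_eq_inter, Finset.inter_eq_right.2 hJ]
    rw [e1]
    obtain ⟨i, hi⟩ := i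
    simp only [Pi.zero_apply]
    by_cases hiJ : i ∈ J
    · rw [← Finset.add_sum_erase J _ hiJ, if_pos rfl]
      have e3 : ∑ j ∈ J.erase i, (if i = j then n4 i + ∑ q ∈ Q, nq i q + ∑ p ∈ P.erase i, nq i p
          else nq i j) = ∑ j ∈ J.erase i, nq i j := by
        refine Finset.sum_congr rfl fun j hj => ?_
        rw [if_neg (fun h => (Finset.mem_erase.1 hj).1 h.symm)]
      rw [e3]
      have e4 : ∑ p ∈ P.erase i, nq i p = ∑ j ∈ P \ J, nq i j + ∑ j ∈ J.erase i, nq i j := by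
        rw [← Finset.sum_sdiff (Finset.erase_subset_erase i hJ)]
        congr 1
        refine Finset.sum_congr ?_ fun _ _ => rfl
        ext k
        simp only [Finset.mem_sdiff, Finset.mem_erase]
        constructor
        · rintro ⟨⟨h3, h4⟩, h5⟩
          exact ⟨h4, fun h6 => h5 ⟨h3, h6⟩⟩
        · rintro ⟨h3, h4⟩
          exact ⟨⟨fun h => h4 (h ▸ hiJ), h3⟩, fun h6 => h4 h6.2⟩
      rw [e4]
      have e5 := h2 i hiJ
      have e6 : ∀ a : ZMod 2, a + a = 0 := by decide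
      linear_combination e5 + e6 (∑ j ∈ J.erase i, nq i j)
    · rw [← h1 i (Finset.mem_sdiff.2 ⟨hi, hiJ⟩)]
      refine Finset.sum_congr rfl fun j hj => ?_
      rw [if_neg (fun h : i = j => hiJ (by rw [h]; exact hj))]

/-- the frame of the descent -/
theorem frame {Q P : Finset ℕ} (hQ : ∀ q ∈ Q, Inq q) (hP : ∀ p ∈ P, Spl p)
    (hdet : (mat Q P).det ≠ 0) {c1 c2 : ℤ}
    (hc2 : ∀ q : ℕ, q.Prime → q ≠ 2 → q ≠ 7 → ¬ (q : ℤ) ∣ c2)
    (hrt : ∀ q ∈ Q, ∀ M r : ZMod q, M ≠ 0 → r ^ 2 + c1 * M * r + c2 * M ^ 2 ≠ 0)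
    (hsq : ∀ p ∈ P, IsSquare ((c2 : ℤ) : ZMod p))
    (hroot : ∀ p ∈ P, ∀ x : ZMod p, x ^ 2 + c1 * x + c2 = 0 → (IsSquare x ↔ n4 p = 0)) {z : ℤ}
    (hz : Squarefree z) (hz2 : ¬ (2 : ℤ) ∣ z)
    (h : ∀ (l : ℕ) [Fact l.Prime], PC (c1 * ((∏ q ∈ Q ∪ P, q : ℕ) : ℤ))
      (c2 * ((∏ q ∈ Q ∪ P, q : ℕ) : ℤ) ^ 2) l z) :
    z.natAbs = 1 ∨ z.natAbs = 7 := by
  classical
  have hdj := disj_QP hQ hP
  have hSp : ∀ l ∈ Q ∪ P, l.Prime ∧ l % 4 = 1 := by
    intro l hl
    rcases Finset.mem_union.1 hl with h | h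
    · exact ⟨(hQ l h).pr, (hQ l h).m4⟩
    · exact ⟨(hP l h).pr, (hP l h).m4⟩
  have hprS : ∀ l ∈ Q ∪ P, l.Prime := fun l hl => (hSp l hl).1
  set J := P.filter (fun p : ℕ => (p : ℤ) ∣ z) with hJdef
  have hJP : J ⊆ P := Finset.filter_subset _ _
  have hJm : ∀ p, p ∈ J ↔ p ∈ P ∧ (p : ℤ) ∣ z := fun p => Finset.mem_filter
  have hprP : ∀ q ∈ P, q.Prime := fun q hq => (hP q hq).pr
  have hprJ : ∀ q ∈ J, q.Prime := fun q hq => hprP q (hJP hq)
  -- the other factors at a prime of `D`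
  have hfac : ∀ p ∈ Q ∪ P, (((∏ q ∈ Q ∪ P, q : ℕ) : ℤ) = p * ((∏ q ∈ (Q ∪ P).erase p, q : ℕ) : ℤ)) ∧
      ¬ (p : ℤ) ∣ ((∏ q ∈ (Q ∪ P).erase p, q : ℕ) : ℤ) := by
    intro p hp
    constructor
    · rw [← Nat.cast_mul, Finset.mul_prod_erase (Q ∪ P) (fun q => q) hp]
    · intro h0
      exact not_dvd_pr (hprS p hp) (fun l hl => hprS l (Finset.mem_of_mem_erase hl))
        (Finset.notMem_erase p _) (by exact_mod_cast h0)
  -- the primes dividing `z`
  have hpr : ∀ q : ℕ, q.Prime → (q : ℤ) ∣ z → q = 7 ∨ q ∈ P := by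
    intro q hq hqz
    by_contra hcon
    push Not at hcon
    have : Fact q.Prime := ⟨hq⟩
    have hqP : Prime (q : ℤ) := Nat.prime_iff_prime_int.1 hq
    have hq2 : q ≠ 2 := by
      rintro rfl
      exact hz2 (by exact_mod_cast hqz)
    by_cases hqS : q ∈ Q ∪ P
    · have hqQ : q ∈ Q := by
        rcases Finset.mem_union.1 hqS with h1 | h1
        · exact h1
        · exact absurd h1 hcon.2
      obtain ⟨e1, e2⟩ := hfac q hqS
      set M' : ℤ := ((∏ q ∈ (Q ∪ P).erase q, q : ℕ) : ℤ) with hM'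
      have hB : ¬ (q : ℤ) ∣ c2 * M' ^ 2 := by
        intro h0
        rcases hqP.dvd_or_dvd h0 with h0 | h0
        · exact hc2 q hq hq2 hcon.1 h0
        · exact e2 (hqP.dvd_of_dvd_pow h0)
      have h1 := h q
      rw [e1, show c1 * (q * M') = q * (c1 * M') by ring,
        show c2 * (q * M') ^ 2 = (q : ℤ) ^ 2 * (c2 * M' ^ 2) by ring] at h1
      obtain ⟨r, hr, -, -⟩ := root_of_PC hz hqz hB h1
      have hM0 : ((M' : ℤ) : ZMod q) ≠ 0 := by
        intro h0
        exact e2 ((ZMod.intCast_zmod_eq_zero_iff_dvd _ _).1 h0)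
      refine hrt q hqQ _ r hM0 ?_
      rw [← hr]
      push_cast
      ring
    · refine not_dvd_of_PC hz ?_ (h q) hqz
      intro h0
      rcases hqP.dvd_or_dvd h0 with h0 | h0
      · exact hc2 q hq hq2 hcon.1 h0
      · have h1 := hqP.dvd_of_dvd_pow h0
        exact not_dvd_pr hq hprS hqS (by exact_mod_cast h1)
  -- the decomposition
  have hdvd : ((∏ l ∈ J, l : ℕ) : ℤ) ∣ z := by
    rw [Int.natCast_dvd]
    refine Finset.prod_primes_dvd _ (fun q hq => (hprJ q hq).prime) fun q hq => ?_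
    exact Int.natCast_dvd.1 ((hJm q).1 hq).2
  obtain ⟨u, hu⟩ := hdvd
  have huq : ∀ q : ℕ, q.Prime → (q : ℤ) ∣ u → q = 7 := by
    intro q hq hqu
    have hqz : (q : ℤ) ∣ z := by
      rw [hu]
      exact hqu.mul_left _
    rcases hpr q hq hqz with h1 | h1
    · exact h1
    · exfalso
      have hqJ : q ∈ J := (hJm q).2 ⟨h1, hqz⟩
      have h2 : z = q * (((∏ l ∈ J.erase q, l : ℕ) : ℤ) * u) := by
        rw [hu, ← Finset.mul_prod_erase J (fun q => q) hqJ]
        push_cast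
        ring
      exact not_dvd_of_sqf hq hz h2 (hqu.mul_left _)
  have hud : u ∣ z := Dvd.intro_left _ hu.symm
  have huu : u.natAbs = 1 ∨ u.natAbs = 7 := only_prime (hz.squarefree_of_dvd hud) huq
  have husq : ∀ p ∈ P, IsSquare (u : ZMod p) := by
    intro p hp
    have f : Fact p.Prime := ⟨hprP p hp⟩
    have h1 : IsSquare (-1 : ZMod p) :=
      ZMod.exists_sq_eq_neg_one_iff.2 (by have := (hP p hp).m4; omega)
    have h7 := (hP p hp).sq
    have hc : u = 1 ∨ u = -1 ∨ u = 7 ∨ u = -7 := by omega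
    rcases hc with rfl | rfl | rfl | rfl
    · push_cast
      exact IsSquare.one
    · push_cast
      exact h1
    · have e : ((7 : ℤ) : ZMod p) = (-1) * (-7) := by push_cast; ring
      rw [e]
      exact h1.mul h7
    · push_cast
      exact h7
  have hu0 : ∀ p ∈ P, (u : ZMod p) ≠ 0 := by
    intro p hp h0
    have h1 := (ZMod.intCast_zmod_eq_zero_iff_dvd u p).1 h0
    exact spl_ne_seven (hP p hp) (huq p (hprP p hp) h1)
  -- squares times `u`
  have hmul : ∀ p ∈ P, ∀ m : ZMod p, IsSquare (m * u) ↔ IsSquare m := by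
    intro p hp m
    have f : Fact p.Prime := ⟨hprP p hp⟩
    obtain ⟨s, hs⟩ := husq p hp
    refine sq_mul_iff (c := s) ?_ (by rw [hs])
    rintro rfl
    apply hu0 p hp
    rw [hs]
    ring
  have hJ : J = ∅ := by
    refine ker_empty hdet hJP ?_ ?_
    · intro p hp
      rw [Finset.mem_sdiff] at hp
      have f : Fact p.Prime := ⟨hprP p hp.1⟩
      have hpz : ¬ (p : ℤ) ∣ z := fun h0 => hp.2 ((hJm p).2 ⟨hp.1, h0⟩)
      have h1 := h p
      obtain ⟨e1, e2⟩ := hfac p (Finset.mem_union_right _ hp.1)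
      rw [e1] at h1
      have hpc2 : ¬ (p : ℤ) ∣ c2 := hc2 p (hprP p hp.1) (spl_ne_two (hP p hp.1))
        (spl_ne_seven (hP p hp.1))
      have h3 := sq_of_PC hpz e2 hpc2 (hsq p hp.1) h1
      rw [← nq_prod (hprP p hp.1) hprJ hp.2, nq_zero, ← hmul p hp.1]
      have e3 : ((∏ l ∈ J, l : ℕ) : ZMod p) * (u : ZMod p) = (z : ZMod p) := by
        rw [hu]
        push_cast
        ring
      rw [e3]
      exact h3
    · intro p hp
      obtain ⟨hpP, z', hz'⟩ := (hJm p).1 hp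
      have f : Fact p.Prime := ⟨hprP p hpP⟩
      have hpQ : p ∉ Q := fun h => Finset.disjoint_left.1 hdj h hpP
      have hp0 : (p : ℤ) ≠ 0 := by
        have := (hprP p hpP).ne_zero
        exact_mod_cast this
      have e0 : z' = ((∏ l ∈ J.erase p, l : ℕ) : ℤ) * u := by
        apply mul_left_cancel₀ hp0
        rw [← hz', hu, ← Finset.mul_prod_erase J (fun q => q) hp]
        push_cast
        ring
      obtain ⟨e1, e2⟩ := hfac p (Finset.mem_union_right _ hpP)
      set M' : ℤ := ((∏ q ∈ (Q ∪ P).erase p, q : ℕ) : ℤ) with hM'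
      have hpPr : Prime (p : ℤ) := Nat.prime_iff_prime_int.1 (hprP p hpP)
      have hB : ¬ (p : ℤ) ∣ c2 * M' ^ 2 := by
        intro h0
        rcases hpPr.dvd_or_dvd h0 with h0 | h0
        · exact hc2 p (hprP p hpP) (spl_ne_two (hP p hpP)) (spl_ne_seven (hP p hpP)) h0
        · exact e2 (hpPr.dvd_of_dvd_pow h0)
      have h1 := h p
      rw [e1, show c1 * (p * M') = p * (c1 * M') by ring,
        show c2 * (p * M') ^ 2 = (p : ℤ) ^ 2 * (c2 * M' ^ 2) by ring] at h1
      obtain ⟨r, hr, hr0, hr2⟩ := root_of_PC hz ⟨z', hz'⟩ hB h1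
      have h3 := hr2 z' hz'
      have hM0 : ((M' : ℤ) : ZMod p) ≠ 0 := by
        intro h0
        exact e2 ((ZMod.intCast_zmod_eq_zero_iff_dvd _ _).1 h0)
      push_cast at hr
      have h5 := hroot p hpP (r / (M' : ZMod p)) (by
        field_simp
        linear_combination hr)
      -- the product of the symbols
      have hE : ∀ l ∈ Q ∪ (P \ J), l.Prime := by
        intro l hl
        apply hprS l
        rcases Finset.mem_union.1 hl with h | h
        · exact Finset.mem_union_left _ h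
        · exact Finset.mem_union_right _ (Finset.mem_sdiff.1 h).1
      have hpE : p ∉ Q ∪ (P \ J) := by
        intro h
        rcases Finset.mem_union.1 h with h | h
        · exact hpQ h
        · exact (Finset.mem_sdiff.1 h).2 hp
      have k5 : nq p (∏ l ∈ Q ∪ (P \ J), l) = ∑ q ∈ Q, nq p q + ∑ j ∈ P \ J, nq p j := by
        rw [nq_prod (hprP p hpP) hE hpE, Finset.sum_union (hdj.mono_right Finset.sdiff_subset)]
      have k4 : (∏ q ∈ (Q ∪ P).erase p, q) = (∏ l ∈ J.erase p, l) * ∏ l ∈ Q ∪ (P \ J), l := by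
        have hne : p ≠ 0 := (hprP p hpP).ne_zero
        apply mul_left_cancel₀ hne
        rw [Finset.mul_prod_erase (Q ∪ P) (fun q => q) (Finset.mem_union_right _ hpP), ← mul_assoc,
          Finset.mul_prod_erase J (fun q => q) hp, Finset.prod_union hdj,
          Finset.prod_union (hdj.mono_right Finset.sdiff_subset), ← Finset.prod_sdiff hJP]
        ring
      set j' : ℕ := ∏ l ∈ J.erase p, l with hj'
      set e' : ℕ := ∏ l ∈ Q ∪ (P \ J), l with he'
      have hj0 : ((j' : ℕ) : ZMod p) ≠ 0 := by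
        rw [Ne, ZMod.natCast_eq_zero_iff]
        exact not_dvd_pr (hprP p hpP) (fun l hl => hprJ l (Finset.mem_of_mem_erase hl))
          (Finset.notMem_erase p J)
      have k6 : IsSquare (e' : ZMod p) ↔ IsSquare (r / (M' : ZMod p)) := by
        -- `z' M' = u j'² e'`
        have a1 : IsSquare ((z' : ZMod p) * (M' : ZMod p)) ↔ IsSquare (e' : ZMod p) := by
          have b1 : (z' : ZMod p) * (M' : ZMod p) =
              (e' : ZMod p) * u * ((j' : ZMod p) * (j' : ZMod p)) := by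
            rw [e0, hM', k4]
            push_cast
            ring
          rw [sq_mul_iff hj0 b1, hmul p hpP]
        rw [← a1]
        obtain ⟨t, ht⟩ := h3
        have hz0 : (z' : ZMod p) ≠ 0 := by
          rw [Ne, ZMod.intCast_zmod_eq_zero_iff_dvd]
          exact not_dvd_of_sqf (hprP p hpP) hz hz'
        have ht0 : t ≠ 0 := by
          rintro rfl
          rw [mul_zero] at ht
          exact mul_ne_zero hr0 hz0 ht
        constructor
        · intro h6
          refine (sq_mul_iff (a := r / (M' : ZMod p)) (b := (z' : ZMod p) * M')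
            (c := t / (z' * M')) (div_ne_zero ht0 (mul_ne_zero hz0 hM0)) ?_).2 h6
          rw [div_mul_div_comm, ← ht]
          field_simp
        · intro h6
          refine (sq_mul_iff (a := r / (M' : ZMod p)) (b := (z' : ZMod p) * M')
            (c := t / (z' * M')) (div_ne_zero ht0 (mul_ne_zero hz0 hM0)) ?_).1 h6
          rw [div_mul_div_comm, ← ht]
          field_simp
      rw [h5, ← nq_zero, k5] at k6
      have k7 : ∀ a b : ZMod 2, (a = 0 ↔ b = 0) → b + a = 0 := by decide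
      have k8 := k7 _ _ k6
      rw [← k8]
      ring
  have hz1 : z = u := by
    rw [hu, hJ]
    simp
  rw [hz1]
  exact huu

/-- the first isogeny Selmer set -/
theorem selA {Q P : Finset ℕ} (hQ : ∀ q ∈ Q, Inq q) (hP : ∀ p ∈ P, Spl p)
    (hdet : (mat Q P).det ≠ 0) {z : ℤ} (hz : Squarefree z) (hz0 : 0 < z)
    (h : ∀ (l : ℕ) [Fact l.Prime], PC (21 * ((∏ q ∈ Q ∪ P, q : ℕ) : ℤ))
      (112 * ((∏ q ∈ Q ∪ P, q : ℕ) : ℤ) ^ 2) l z) : z = 1 ∨ z = 7 := by
  have hM : ((∏ q ∈ Q ∪ P, q : ℕ) : ℤ) % 4 = 1 := by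
    have := prod_mod_four (S := Q ∪ P) fun q hq => by
      rcases Finset.mem_union.1 hq with h | h
      · exact (hQ q h).m4
      · exact (hP q h).m4
    omega
  have key := frame (c1 := 21) (c2 := 112) hQ hP hdet ?_ ?_ ?_ ?_ hz (twoA hM hz (h 2)) h
  · omega
  · intro q hq h2 h7 h0
    have h1 : q ∣ 112 := by exact_mod_cast h0
    rw [show (112 : ℕ) = 2 ^ 4 * 7 by norm_num] at h1
    rcases (Nat.Prime.dvd_mul hq).1 h1 with h3 | h3
    · exact h2 ((Nat.prime_dvd_prime_iff_eq hq Nat.prime_two).1 (hq.dvd_of_dvd_pow h3))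
    · exact h7 ((Nat.prime_dvd_prime_iff_eq hq (by norm_num)).1 h3)
  · intro q hq M r hM0 hr
    have f : Fact q.Prime := ⟨(hQ q hq).pr⟩
    apply (hQ q hq).ns
    refine ⟨(2 * r + 21 * M) / M, ?_⟩
    push_cast at hr
    field_simp
    linear_combination -4 * hr
  · intro p hp
    have f : Fact p.Prime := ⟨(hP p hp).pr⟩
    have h1 : IsSquare (-1 : ZMod p) :=
      ZMod.exists_sq_eq_neg_one_iff.2 (by have := (hP p hp).m4; omega)
    have e : ((112 : ℤ) : ZMod p) = (-1) * (-7) * (4 * 4) := by push_cast; ring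
    rw [e]
    exact (h1.mul (hP p hp).sq).mul ⟨4, rfl⟩
  · intro p hp x hx
    push_cast at hx
    exact rootA (hP p hp) hx

/-- the second isogeny Selmer set -/
theorem selB {Q P : Finset ℕ} (hQ : ∀ q ∈ Q, Inq q) (hP : ∀ p ∈ P, Spl p)
    (hdet : (mat Q P).det ≠ 0) {z : ℤ} (hz : Squarefree z)
    (h : ∀ (l : ℕ) [Fact l.Prime], PC (-42 * ((∏ q ∈ Q ∪ P, q : ℕ) : ℤ))
      (-7 * ((∏ q ∈ Q ∪ P, q : ℕ) : ℤ) ^ 2) l z) : z = 1 ∨ z = -7 := by
  have hM : ((∏ q ∈ Q ∪ P, q : ℕ) : ℤ) % 4 = 1 := by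
    have := prod_mod_four (S := Q ∪ P) fun q hq => by
      rcases Finset.mem_union.1 hq with h | h
      · exact (hQ q h).m4
      · exact (hP q h).m4
    omega
  have hz2 : ¬ (2 : ℤ) ∣ z := by
    have := not_dvd_of_PC hz (l := 2) (b := -7 * ((∏ q ∈ Q ∪ P, q : ℕ) : ℤ) ^ 2) (by
      intro h0
      have h1 : (2 : ℤ) ∣ -7 * ((∏ q ∈ Q ∪ P, q : ℕ) : ℤ) ^ 2 := by exact_mod_cast h0
      have h2 : (-7 * ((∏ q ∈ Q ∪ P, q : ℕ) : ℤ) ^ 2) % 4 = 1 := by
        have h3 : ((∏ q ∈ Q ∪ P, q : ℕ) : ℤ) ^ 2 % 4 = 1 := by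
          rw [pow_two, Int.mul_emod, hM]
          norm_num
        omega
      omega) (h 2)
    exact_mod_cast this
  have key := frame (c1 := -42) (c2 := -7) hQ hP hdet ?_ ?_ ?_ ?_ hz hz2 h
  · by_cases h3 : z % 4 = 3
    · exact (twoB hM h3 (h 2)).elim
    · omega
  · intro q hq h2 h7 h0
    have h1 : q ∣ 7 := by
      have := (dvd_neg (a := (q : ℤ)) (b := 7)).1 h0
      exact_mod_cast this
    exact h7 ((Nat.prime_dvd_prime_iff_eq hq (by norm_num)).1 h1)
  · intro q hq M r hM0 hr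
    have f : Fact q.Prime := ⟨(hQ q hq).pr⟩
    have h2 : (2 : ZMod q) ≠ 0 := by
      exact_mod_cast cast_ne (hQ q hq).pr Nat.prime_two (by
        rintro rfl
        have := (hQ _ hq).m4
        omega)
    have h8 : (8 : ZMod q) ≠ 0 := by
      rw [show (8 : ZMod q) = 2 ^ 3 by norm_num]
      exact pow_ne_zero 3 h2
    have h1 : IsSquare (-1 : ZMod q) :=
      ZMod.exists_sq_eq_neg_one_iff.2 (by have := (hQ q hq).m4; omega)
    apply (hQ q hq).ns
    have e : (-7 : ZMod q) = (-1) * (((r - 21 * M) / (8 * M)) * ((r - 21 * M) / (8 * M))) := by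
      push_cast at hr
      field_simp
      linear_combination hr
    rw [e]
    exact h1.mul ⟨_, rfl⟩
  · intro p hp
    push_cast
    exact (hP p hp).sq
  · intro p hp x hx
    push_cast at hx
    exact rootB (hP p hp) (by linear_combination hx)

end Pool.Agent.Q6.XK
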