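import Pool.Agent.Q6.XK.Desc
import Pool.Agent.Y700.Sel
import Pool.Agent.Z932.Z702.Trn
import Pool.Agent.Y79.SG.Coc
import Pool.Agent.Y79.SG.Lot
import Pool.Agent.Y945.SG.Cob
import Pool.Agent.Y542.SGT.Tor
import Pool.Agent.Y21.SG.LinN

/-!
# Twists of `X_0(49)`: the algebraic side over the rational numbers
-/

set_option autoImplicit false

namespace Pool.Agent.Q6.XK

open Finset WeierstrassCurve
open Pool.Agent.Y698 Pool.Agent.Y698.SG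
open Pool.Agent.Y698.SG.Cv (WF LocI coc)
open Pool.Agent.Y700 (PC VR card_sel count not_sq_aux)
open Pool.Agent.Y668 (Wt)
open Pool.Agent.TH841.SH.D (Coch IsCoc IsCob LocTriv shaCoc cob cob_zero Sha)

/-- the short equation of the twist by `D` -/
def ES (D : ℤ) : WeierstrassCurve ℚ :=
  { a₁ := 0, a₂ := 0, a₃ := 0, a₄ := ((-35 * D ^ 2 : ℤ) : ℚ), a₆ := ((-98 * D ^ 3 : ℤ) : ℚ) }

/-- the change of equations -/
theorem vr_ES (D : ℤ) : VR (Wt ((21 * D : ℤ) : ℚ) ((112 * D ^ 2 : ℤ) : ℚ)) (ES D) 1 (-7 * D) 0 0 where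
  u0 := one_ne_zero
  e1 := by
    show (1 : ℚ) * 0 = 0 + 2 * 0
    ring
  e2 := by
    show (1 : ℚ) ^ 2 * 0 = ((21 * D : ℤ) : ℚ) - 0 * 0 + 3 * (-7 * D) - 0 ^ 2
    push_cast
    ring
  e3 := by
    show (1 : ℚ) ^ 3 * 0 = 0 + (-7 * D) * 0 + 2 * 0
    ring
  e4 := by
    show (1 : ℚ) ^ 4 * ((-35 * D ^ 2 : ℤ) : ℚ) = ((112 * D ^ 2 : ℤ) : ℚ) - 0 * 0 +
      2 * (-7 * D) * ((21 * D : ℤ) : ℚ) - (0 + (-7 * D) * 0) * 0 + 3 * (-7 * (D : ℚ)) ^ 2 - 2 * 0 * 0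
    push_cast
    ring
  e6 := by
    show (1 : ℚ) ^ 6 * ((-98 * D ^ 3 : ℤ) : ℚ) = 0 + (-7 * D) * ((112 * D ^ 2 : ℤ) : ℚ) +
      (-7 * D) ^ 2 * ((21 * D : ℤ) : ℚ) + (-7 * (D : ℚ)) ^ 3 - 0 * 0 - 0 ^ 2 - (-7 * D) * 0 * 0
    push_cast
    ring

theorem ES_ne {D : ℤ} (hD : D ≠ 0) : (ES D).Δ ≠ 0 := by
  have e : (ES D).Δ = -(2 ^ 12 * 7 ^ 3) * (D : ℚ) ^ 6 := by
    simp only [WeierstrassCurve.Δ, WeierstrassCurve.b₂, WeierstrassCurve.b₄,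
      WeierstrassCurve.b₆, WeierstrassCurve.b₈, ES]
    push_cast
    ring
  rw [e]
  have : (D : ℚ) ≠ 0 := by exact_mod_cast hD
  exact mul_ne_zero (by norm_num) (pow_ne_zero 6 this)

/-- finitely many points and no element of order two in `Ш` -/
def Triv (D : ℤ) : Prop :=
  Finite (ES D).toAffine.Point ∧ ∀ x : Sha (ES D), x + x = 0 → x = 0

/-- the same for the other equation -/
theorem triv_iff {D : ℤ} (hD : D ≠ 0) : Triv D ↔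
    (Finite (Wt ((21 * D : ℤ) : ℚ) ((112 * D ^ 2 : ℤ) : ℚ)).toAffine.Point ∧
      ∀ x : Sha (Wt ((21 * D : ℤ) : ℚ) ((112 * D ^ 2 : ℤ) : ℚ)), x + x = 0 → x = 0) := by
  obtain ⟨h1, h2, -⟩ := Pool.Agent.Z932.Z702.t_TRN _ _ _ _ _ _ (vr_ES D) (ES_ne hD)
  exact (and_congr h1 h2).symm

section
variable {Q P : Finset ℕ}

lemma prod_four (hQ : ∀ q ∈ Q, Inq q) (hP : ∀ p ∈ P, Spl p) :
    ((∏ q ∈ Q ∪ P, q : ℕ) : ℤ) % 4 = 1 := by
  have := prod_mod_four (S := Q ∪ P) fun q hq => by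
    rcases Finset.mem_union.1 hq with h | h
    · exact (hQ q h).m4
    · exact (hP q h).m4
  omega

/-- the nonsingular case -/
theorem triv_of_det (hQ : ∀ q ∈ Q, Inq q) (hP : ∀ p ∈ P, Spl p) (hdet : (mat Q P).det ≠ 0) :
    Triv ((∏ q ∈ Q ∪ P, q : ℕ) : ℤ) := by
  have h4 := prod_four hQ hP
  set D : ℤ := ((∏ q ∈ Q ∪ P, q : ℕ) : ℤ) with hD
  have hD0 : D ≠ 0 := by intro h; rw [h] at h4; norm_num at h4
  have hD2 : 0 < D ^ 2 := by positivity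
  have hb : 112 * D ^ 2 ≠ 0 := by positivity
  have hab : (21 * D) ^ 2 - 4 * (112 * D ^ 2) < 0 := by nlinarith
  obtain ⟨hfin, hcard⟩ := card_sel (a := 21 * D) (b := 112 * D ^ 2) hb hab
    (S1 := {1, 7}) (S2 := {1, -7}) (Set.toFinite _) (Set.toFinite _) (by
      intro z hz hz0 hpc
      simpa using selA hQ hP hdet hz hz0 (fun l _ => hpc l)) (by
      intro z hz hpc
      have h6 : z = 1 ∨ z = -7 := selB hQ hP hdet hz (fun l _ => by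
        have h5 := hpc l
        have e1 : -2 * (21 * D) = -42 * D := by ring
        have e2 : (21 * D) ^ 2 - 4 * (112 * D ^ 2) = -7 * D ^ 2 := by ring
        rw [e1, e2] at h5
        exact h5)
      simpa using h6)
  have hc4 : Nat.card (Pool.Agent.Y668.selCoc (Wt ((21 * D : ℤ) : ℚ) ((112 * D ^ 2 : ℤ) : ℚ))) ≤ 4 := by
    refine hcard.trans ?_
    rw [Set.ncard_pair (by norm_num), Set.ncard_pair (by norm_num)]
  have hbQ : ((112 * D ^ 2 : ℤ) : ℚ) ≠ 0 := by exact_mod_cast hb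
  have habQ : ((21 * D : ℤ) : ℚ) ^ 2 - 4 * ((112 * D ^ 2 : ℤ) : ℚ) ≠ 0 := by
    exact_mod_cast hab.ne
  have hsq : ¬ IsSquare (((21 * D : ℤ) : ℚ) ^ 2 - 4 * ((112 * D ^ 2 : ℤ) : ℚ)) := by
    have e : ((21 * D : ℤ) : ℚ) ^ 2 - 4 * ((112 * D ^ 2 : ℤ) : ℚ) = (((-7) * D ^ 2 : ℤ) : ℚ) := by
      push_cast; ring
    rw [e]
    exact not_sq_aux _ (by decide) hD0
  have hbs : ¬ IsSquare ((112 * D ^ 2 : ℤ) : ℚ) := not_sq_aux _ (by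
    rintro ⟨r, hr⟩
    have k1 : r < 11 := by nlinarith
    have k2 : -11 < r := by nlinarith
    interval_cases r <;> omega) hD0
  obtain ⟨c1, c2, -⟩ := count hbQ habQ hsq hbs hfin hc4
  have hv := vr_ES D
  refine ⟨Finite.of_equiv _ (hv.equiv (ES_ne hD0)).toEquiv.symm, fun x hx => ?_⟩
  exact Pool.Agent.Y700.sha_two_pow hv (ES_ne hD0) c1 1 x (by rw [pow_one, two_nsmul]; exact hx)

/-- a nontrivial element of `Ш[2]` from an everywhere locally trivial class -/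
theorem sha_ex {a b d : ℤ} (hb : b ≠ 0)
    (hab : a ^ 2 - 4 * b ≠ 0) (nb : ¬ IsSquare (b : ℚ)) (nab : ¬ IsSquare ((a : ℚ) ^ 2 - 4 * b))
    (hd : d ≠ 0) (n1 : ¬ IsSquare (d : ℚ)) (n2 : ¬ IsSquare ((d : ℚ) * ((a : ℚ) ^ 2 - 4 * b)))
    (hl : ∀ (p : ℕ) [Fact p.Prime], LocI ℚ_[p] a b d) (hr : LocI ℝ a b d)
    (hf : Finite (WF ℚ a b).toAffine.Point) : ∃ x : Sha (WF ℚ a b), x ≠ 0 ∧ x + x = 0 := by
  have hc : coc ℚ hb d ∈ shaCoc (WF ℚ a b) := by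
    refine ⟨(Pool.Agent.Y79.SG.t_COC ℚ a b hb d).1, fun p _ => ?_, ?_⟩
    · exact Pool.Agent.Y79.SG.Lot.t_LOT ℚ a b hb d hab hd _ (hl p)
    · exact Pool.Agent.Y79.SG.Lot.t_LOT ℚ a b hb d hab hd _ hr
  let N : AddSubgroup (shaCoc (WF ℚ a b)) := (cob (WF ℚ a b)).addSubgroupOf (shaCoc (WF ℚ a b))
  let y : shaCoc (WF ℚ a b) := ⟨coc ℚ hb d, hc⟩
  refine ⟨(QuotientAddGroup.mk y : shaCoc (WF ℚ a b) ⧸ N), ?_, ?_⟩
  · intro h0
    have h0' : (QuotientAddGroup.mk y : shaCoc (WF ℚ a b) ⧸ N) = 0 := h0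
    rw [QuotientAddGroup.eq_zero_iff, AddSubgroup.mem_addSubgroupOf] at h0'
    rcases Pool.Agent.Y945.SG.t_COB ℚ a b hb d hab hd h0' with h | h | h
    · exact n1 h
    · exact n2 h
    · rcases Pool.Agent.Y542.SGT.t_TOR ℚ a b d hb hab nb nab hf h with h | h
      · exact n1 h
      · exact n2 h
  · have h5 : (QuotientAddGroup.mk (y + y) : shaCoc (WF ℚ a b) ⧸ N) = 0 := by
      rw [QuotientAddGroup.eq_zero_iff, AddSubgroup.mem_addSubgroupOf]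
      have h6 : ((y + y : shaCoc (WF ℚ a b)) : Coch (WF ℚ a b)) = 0 :=
        (Pool.Agent.Y79.SG.t_COC ℚ a b hb d).2
      rw [h6]
      exact cob_zero _
    exact h5

/-- a product of different primes is not a square times an integer prime to one of them -/
lemma not_sq_prod {J : Finset ℕ} (hJ : ∀ l ∈ J, l.Prime) {p : ℕ} (hp : p ∈ J) {c : ℤ}
    (hc : ¬ (p : ℤ) ∣ c) (e : ℤ) (he : e ≠ 0) :
    ¬ IsSquare ((((∏ q ∈ J, q : ℕ) : ℤ) * (c * e ^ 2) : ℤ) : ℚ) := by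
  have e1 : ((∏ q ∈ J, q : ℕ) : ℤ) * (c * e ^ 2) = (((∏ q ∈ J, q : ℕ) : ℤ) * c) * e ^ 2 := by ring
  rw [e1]
  refine not_sq_aux _ ?_ he
  rintro ⟨r, hr⟩
  have hpp := hJ p hp
  have hpP : Prime (p : ℤ) := Nat.prime_iff_prime_int.1 hpp
  have h1 : ((∏ q ∈ J, q : ℕ) : ℤ) = p * ((∏ q ∈ J.erase p, q : ℕ) : ℤ) := by
    rw [← Nat.cast_mul, Finset.mul_prod_erase J (fun q => q) hp]
  have h2 : ¬ (p : ℤ) ∣ ((∏ q ∈ J.erase p, q : ℕ) : ℤ) := fun h0 =>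
    not_dvd_pr hpp (fun l hl => hJ l (Finset.mem_of_mem_erase hl)) (Finset.notMem_erase p J)
      (by exact_mod_cast h0)
  have h3 : (p : ℤ) ∣ r * r := by
    rw [← hr, h1]
    exact ⟨((∏ q ∈ J.erase p, q : ℕ) : ℤ) * c, by ring⟩
  have h4 : (p : ℤ) ∣ r := by
    rcases hpP.dvd_or_dvd h3 with h | h <;> exact h
  obtain ⟨k, rfl⟩ := h4
  have hp0 : (p : ℤ) ≠ 0 := hpP.ne_zero
  have h5 : ((∏ q ∈ J.erase p, q : ℕ) : ℤ) * c = p * (k * k) := by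
    apply mul_left_cancel₀ hp0
    rw [h1] at hr
    linear_combination hr
  rcases hpP.dvd_or_dvd (⟨_, h5⟩ : (p : ℤ) ∣ ((∏ q ∈ J.erase p, q : ℕ) : ℤ) * c) with h | h
  · exact h2 h
  · exact hc h

/-- **the equivalence** -/
theorem triv_det (hQ : ∀ q ∈ Q, Inq q) (hP : ∀ p ∈ P, Spl p) :
    Triv ((∏ q ∈ Q ∪ P, q : ℕ) : ℤ) ↔ (mat Q P).det ≠ 0 := by
  classical
  refine ⟨fun hT hdet => ?_, triv_of_det hQ hP⟩
  have h4 := prod_four hQ hP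
  obtain ⟨J, hJP, hJne, h1, h2⟩ := Pool.Agent.Y21.SG.t_LIN ℕ (fun i => n4 i + ∑ q ∈ Q, nq i q) nq P
    hdet
  obtain ⟨l1, l2⟩ := loc_all hQ hP hJP h1 h2
  set D : ℤ := ((∏ q ∈ Q ∪ P, q : ℕ) : ℤ) with hD
  have hD0 : D ≠ 0 := by intro h; rw [h] at h4; norm_num at h4
  rw [triv_iff hD0] at hT
  have hJp : ∀ l ∈ J, l.Prime := fun l hl => (hP l (hJP hl)).pr
  have hb : 112 * D ^ 2 ≠ 0 := mul_ne_zero (by norm_num) (pow_ne_zero 2 hD0)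
  have eab : (21 * D) ^ 2 - 4 * (112 * D ^ 2) = -7 * D ^ 2 := by ring
  have hab : (21 * D) ^ 2 - 4 * (112 * D ^ 2) ≠ 0 := by
    rw [eab]
    exact mul_ne_zero (by norm_num) (pow_ne_zero 2 hD0)
  have eabQ : ((21 * D : ℤ) : ℚ) ^ 2 - 4 * ((112 * D ^ 2 : ℤ) : ℚ) = (((-7) * D ^ 2 : ℤ) : ℚ) := by
    push_cast; ring
  have nab : ¬ IsSquare (((21 * D : ℤ) : ℚ) ^ 2 - 4 * ((112 * D ^ 2 : ℤ) : ℚ)) := by
    rw [eabQ]
    exact not_sq_aux _ (by decide) hD0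
  have nb : ¬ IsSquare ((112 * D ^ 2 : ℤ) : ℚ) := not_sq_aux _ (by
    rintro ⟨r, hr⟩
    have k1 : r < 11 := by nlinarith
    have k2 : -11 < r := by nlinarith
    interval_cases r <;> omega) hD0
  obtain ⟨p, hp⟩ := hJne
  have hp7 := spl_ne_seven (hP p (hJP hp))
  have hc1 : ¬ (p : ℤ) ∣ 1 := fun h => (Nat.prime_iff_prime_int.1 (hJp p hp)).not_unit
    (isUnit_of_dvd_one h)
  have hc7 : ¬ (p : ℤ) ∣ -7 := by
    intro h0
    have h3 : p ∣ 7 := by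
      have := (dvd_neg (a := (p : ℤ)) (b := 7)).1 h0
      exact_mod_cast this
    exact hp7 ((Nat.prime_dvd_prime_iff_eq (hJp p hp) (by norm_num)).1 h3)
  have n1 : ¬ IsSquare ((((∏ q ∈ J, q : ℕ) : ℤ)) : ℚ) := by
    have := not_sq_prod hJp hp hc1 1 one_ne_zero
    rwa [one_pow, mul_one, mul_one] at this
  have n2 : ¬ IsSquare ((((∏ q ∈ J, q : ℕ) : ℤ) : ℚ) *
      (((21 * D : ℤ) : ℚ) ^ 2 - 4 * ((112 * D ^ 2 : ℤ) : ℚ))) := by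
    rw [eabQ, ← Int.cast_mul]
    exact not_sq_prod hJp hp hc7 D hD0
  have hpos : ∏ q ∈ J, q ≠ 0 := Finset.prod_ne_zero_iff.2 fun q hq => (hJp q hq).ne_zero
  obtain ⟨x, hx0, hx2⟩ := sha_ex (d := ((∏ q ∈ J, q : ℕ) : ℤ)) hb hab nb nab
    (by rw [Nat.cast_ne_zero]; exact hpos) n1 n2 l1 l2 hT.1
  exact hx0 (hT.2 x hx2)

end

end Pool.Agent.Q6.XK
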