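import Pool.Agent.Y814.BSD14.Sel2

/-!
# Twists of `X_0(49)`: the local conditions at two
-/

set_option autoImplicit false

namespace Pool.Agent.Q6.XK

open Pool.Agent.Y700 (PC)
open Pool.Agent.Y814.BSD14 (two_adic_frac ne_zero_of_eq not_dvd_of_sqf)

theorem sq16 : ∀ x : ZMod 16, x ^ 2 ∈ ([0, 1, 4, 9] : List (ZMod 16)) := by decide

theorem unit16 : ∀ x y : ZMod 16, x * y = 1 → x ^ 2 * x ^ 2 = 1 := by decide

theorem odd16 (u : ℤ) (hu : ¬ (2 : ℤ) ∣ u) :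
    (u : ZMod 16) ∈ ([1, 3, 5, 7, 9, 11, 13, 15] : List (ZMod 16)) := by
  have h2 : (u : ZMod 16) = ((u % 16 : ℤ) : ZMod 16) := by
    rw [ZMod.intCast_eq_intCast_iff]
    exact (Int.mod_modEq u 16).symm
  have h : u % 16 = 1 ∨ u % 16 = 3 ∨ u % 16 = 5 ∨ u % 16 = 7 ∨ u % 16 = 9 ∨ u % 16 = 11 ∨
    u % 16 = 13 ∨ u % 16 = 15 := by omega
  rcases h with h | h | h | h | h | h | h | h <;> rw [h2, h] <;> decide

theorem one16 (u : ℤ) (hu : u % 4 = 1) :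
    (u : ZMod 16) ∈ ([1, 5, 9, 13] : List (ZMod 16)) := by
  have h2 : (u : ZMod 16) = ((u % 16 : ℤ) : ZMod 16) := by
    rw [ZMod.intCast_eq_intCast_iff]
    exact (Int.mod_modEq u 16).symm
  have h : u % 16 = 1 ∨ u % 16 = 5 ∨ u % 16 = 9 ∨ u % 16 = 13 := by omega
  rcases h with h | h | h | h <;> rw [h2, h] <;> decide

theorem three16 (u : ℤ) (hu : u % 4 = 3) :
    (u : ZMod 16) ∈ ([3, 7, 11, 15] : List (ZMod 16)) := by
  have h2 : (u : ZMod 16) = ((u % 16 : ℤ) : ZMod 16) := by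
    rw [ZMod.intCast_eq_intCast_iff]
    exact (Int.mod_modEq u 16).symm
  have h : u % 16 = 3 ∨ u % 16 = 7 ∨ u % 16 = 11 ∨ u % 16 = 15 := by omega
  rcases h with h | h | h | h <;> rw [h2, h] <;> decide

theorem keyA : ∀ u ∈ ([1, 3, 5, 7, 9, 11, 13, 15] : List (ZMod 16)),
    ∀ M ∈ ([1, 5, 9, 13] : List (ZMod 16)), ∀ n ∈ ([0, 1, 4, 9] : List (ZMod 16)),
    ∀ W ∈ ([0, 1, 4, 9] : List (ZMod 16)), ∀ E ∈ ([0, 1, 4, 9] : List (ZMod 16)),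
    (W * W = 1 ∨ E * E = 1) →
      ¬ (u * n = 2 * u ^ 2 * W ^ 2 + 21 * M * u * W * E + 56 * M ^ 2 * E ^ 2) := by
  decide +kernel

theorem keyB : ∀ u ∈ ([3, 7, 11, 15] : List (ZMod 16)),
    ∀ M ∈ ([1, 5, 9, 13] : List (ZMod 16)), ∀ n ∈ ([0, 1, 4, 9] : List (ZMod 16)),
    ∀ W ∈ ([0, 1, 4, 9] : List (ZMod 16)), ∀ E ∈ ([0, 1, 4, 9] : List (ZMod 16)),
    (W * W = 1 ∨ E * E = 1) →
      ¬ (u * n = u ^ 2 * W ^ 2 - 42 * M * u * W * E - 7 * M ^ 2 * E ^ 2) := by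
  decide +kernel

theorem no_pt (c0 c1 c2 c3 : ℤ) (h0 : ¬ (2 : ℤ) ∣ c0)
    (key : ∀ n ∈ ([0, 1, 4, 9] : List (ZMod 16)), ∀ W ∈ ([0, 1, 4, 9] : List (ZMod 16)),
      ∀ E ∈ ([0, 1, 4, 9] : List (ZMod 16)), (W * W = 1 ∨ E * E = 1) →
      ¬ (c0 * n = c1 * W ^ 2 + c2 * W * E + c3 * E ^ 2)) (s N : ℚ_[2])
    (h : c0 * N ^ 2 = c1 * s ^ 4 + c2 * s ^ 2 + c3) : False := by
  obtain ⟨r, e, he, hs, hu⟩ := two_adic_frac s
  obtain ⟨f⟩ : Nonempty (ℤ_[2] →+* ZMod 16) := ⟨by simpa using PadicInt.toZModPow (p := 2) 4⟩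
  set P : ℤ_[2] := c1 * r ^ 4 + c2 * r ^ 2 * e ^ 2 + c3 * e ^ 4 with hP
  have h1 : c0 * (N * (e : ℚ_[2]) ^ 2) ^ 2 = (P : ℚ_[2]) := by
    have e1 : c0 * (N * (e : ℚ_[2]) ^ 2) ^ 2 = (c0 * N ^ 2) * (e : ℚ_[2]) ^ 4 := by ring
    rw [e1, h, hs, hP]
    push_cast
    field_simp
  have hc : ‖(c0 : ℚ_[2])‖ = 1 := by
    refine le_antisymm (Padic.norm_int_le_one c0) (not_lt.1 fun h3 => h0 ?_)
    have := Padic.norm_intCast_lt_one_iff.1 h3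
    exact_mod_cast this
  have h2 : ‖N * (e : ℚ_[2]) ^ 2‖ ≤ 1 := by
    have h3 : ‖N * (e : ℚ_[2]) ^ 2‖ ^ 2 ≤ 1 := by
      have h4 : ‖(c0 : ℚ_[2]) * (N * (e : ℚ_[2]) ^ 2) ^ 2‖ ≤ 1 := by rw [h1]; exact P.2
      rwa [norm_mul, hc, one_mul, norm_pow] at h4
    by_contra h4
    push Not at h4
    nlinarith
  obtain ⟨n, hn⟩ : ∃ n : ℤ_[2], (n : ℚ_[2]) = N * (e : ℚ_[2]) ^ 2 := ⟨⟨_, h2⟩, rfl⟩
  have h5 : (c0 : ℤ_[2]) * n ^ 2 = P := by
    apply PadicInt.ext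
    push_cast
    rw [hn, h1]
  have h6 := congrArg f h5
  rw [hP] at h6
  simp only [map_pow, map_mul, map_add, map_intCast] at h6
  refine key _ (sq16 (f n)) _ (sq16 (f r)) _ (sq16 (f e)) ?_ (h6.trans (by ring))
  rcases hu with ⟨r', hr'⟩ | ⟨e', he'⟩
  · left
    exact unit16 (f r) (f r') (by rw [← map_mul, hr', map_one])
  · right
    exact unit16 (f e) (f e') (by rw [← map_mul, he', map_one])

/-- first isogeny: the class is odd -/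
theorem twoA {M : ℤ} (hM : M % 4 = 1) {z : ℤ} (hz : Squarefree z)
    (h : PC (21 * M) (112 * M ^ 2) 2 z) : ¬ (2 : ℤ) ∣ z := by
  rintro ⟨u, rfl⟩
  have hu : ¬ (2 : ℤ) ∣ u := by
    have := not_dvd_of_sqf Nat.prime_two (z := 2 * u) (z' := u) hz (by push_cast; ring)
    exact_mod_cast this
  obtain ⟨x, y, hy, h1, t, ht⟩ := h
  have hx0 := ne_zero_of_eq hy h1
  have hu0 : (u : ℚ_[2]) ≠ 0 := by
    have : u ≠ 0 := by rintro rfl; exact hu (dvd_zero _)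
    exact_mod_cast this
  obtain ⟨s, hs⟩ : ∃ s : ℚ_[2], t = s * (2 * u) := ⟨t / (2 * u), by field_simp⟩
  have hxs : x = 2 * u * s ^ 2 := by
    have h2 : x * (2 * u) = (2 * u * s ^ 2) * (2 * u) := by
      push_cast at ht
      rw [ht, hs]
      ring
    exact mul_right_cancel₀ (mul_ne_zero two_ne_zero hu0) h2
  subst hxs
  have hs0 : s ≠ 0 := by
    rintro rfl
    apply hx0
    ring
  obtain ⟨N, hN⟩ : ∃ N : ℚ_[2], y = 2 * u * s * N := ⟨y / (2 * u * s), by field_simp⟩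
  subst hN
  have h2 : (u : ℚ_[2]) * N ^ 2 = 2 * u ^ 2 * s ^ 4 + 21 * M * u * s ^ 2 + 56 * M ^ 2 := by
    have h3 : (4 : ℚ_[2]) * u * s ^ 2 ≠ 0 :=
      mul_ne_zero (mul_ne_zero (by norm_num) hu0) (pow_ne_zero 2 hs0)
    apply mul_left_cancel₀ h3
    push_cast at h1
    linear_combination h1
  refine no_pt u (2 * u ^ 2) (21 * M * u) (56 * M ^ 2) hu ?_ s N ?_
  · intro n hn W hW E hE hWE h5
    refine keyA _ (odd16 u hu) _ (one16 M hM) n hn W hW E hE hWE (h5.trans ?_)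
    push_cast
    ring
  · push_cast
    linear_combination h2

/-- second isogeny: the class is not `3` modulo `4` -/
theorem twoB {M : ℤ} (hM : M % 4 = 1) {z : ℤ} (hz : z % 4 = 3)
    (h : PC (-42 * M) (-7 * M ^ 2) 2 z) : False := by
  have hu : ¬ (2 : ℤ) ∣ z := by omega
  obtain ⟨x, y, hy, h1, t, ht⟩ := h
  have hx0 := ne_zero_of_eq hy h1
  have hu0 : (z : ℚ_[2]) ≠ 0 := by
    have : z ≠ 0 := by rintro rfl; exact hu (dvd_zero _)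
    exact_mod_cast this
  obtain ⟨s, hs⟩ : ∃ s : ℚ_[2], t = s * z := ⟨t / z, by field_simp⟩
  have hxs : x = z * s ^ 2 := by
    have h2 : x * z = (z * s ^ 2) * z := by
      rw [ht, hs]
      ring
    exact mul_right_cancel₀ hu0 h2
  subst hxs
  have hs0 : s ≠ 0 := by
    rintro rfl
    apply hx0
    ring
  obtain ⟨N, hN⟩ : ∃ N : ℚ_[2], y = z * s * N := ⟨y / (z * s), by field_simp⟩
  subst hN
  have h2 : (z : ℚ_[2]) * N ^ 2 = z ^ 2 * s ^ 4 - 42 * M * z * s ^ 2 - 7 * M ^ 2 := by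
    have h3 : (z : ℚ_[2]) * s ^ 2 ≠ 0 := mul_ne_zero hu0 (pow_ne_zero 2 hs0)
    apply mul_left_cancel₀ h3
    push_cast at h1
    linear_combination h1
  refine no_pt z (z ^ 2) (-42 * M * z) (-7 * M ^ 2) hu ?_ s N ?_
  · intro n hn W hW E hE hWE h5
    refine keyB _ (three16 z hz) _ (one16 M hM) n hn W hW E hE hWE (h5.trans ?_)
    push_cast
    ring
  · push_cast
    linear_combination h2

end Pool.Agent.Q6.XK
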